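import Pool.Agent.Lib.MP_5591bc_ag.GShid
import Pool.Agent.Lib.MP_5591bc_ag.RTens

/-! A zero estimate in one variable at many ordinary points, and its form on a grid. -/

namespace Pool.Agent.Lib.MP_5591bc_ag.H

open Matrix Polynomial Function G

noncomputable section

variable {k ι S : Type*} [Field k] [Fintype ι] [Field S]

theorem zero_fam [CharZero S] {t : PowerSeries S} (ht : IsUnit t) {F : Set (PowerSeries S)}
    (h0 : ∀ g ∈ F, ¬ IsUnit g) (hd : ∀ g ∈ F, t * PowerSeries.derivative S g ∈ F) :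
    ∀ g ∈ F, g = 0 := by
  have key : ∀ n, ∀ g ∈ F, PowerSeries.X ^ n ∣ g := fun n => by
    induction n with
    | zero => simp
    | succ n ih =>
      intro g hg
      have h1 := ht.dvd_mul_left.1 (ih _ (hd g hg))
      rw [PowerSeries.X_pow_dvd_iff] at h1 ⊢
      rintro (_ | m) hm
      · have := h0 g hg
        rw [PowerSeries.isUnit_iff_constantCoeff, isUnit_iff_ne_zero, not_not] at this
        simpa using this
      · have := h1 m (by omega)
        rw [PowerSeries.coeff_derivative] at this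
        exact (mul_eq_zero.1 this).resolve_right (Nat.cast_add_one_ne_zero m)
  intro g hg
  ext n
  exact PowerSeries.X_pow_dvd_iff.1 (key (n + 1) g hg) n (Nat.lt_succ_self n)

theorem zero_core [CharZero S] {t : PowerSeries S} (ht : IsUnit t)
    {Bm : Matrix ι ι (PowerSeries S)} {Φ : ι → PowerSeries S}
    (hΦ : ∀ μ, t * PowerSeries.derivative S (Φ μ) = ∑ ν, Bm μ ν * Φ ν)
    {r : ℕ → ι → PowerSeries S}
    (hr : ∀ i, r (i + 1) = t • (fun μ => PowerSeries.derivative S (r i μ)) + r i ᵥ* Bm) {l : ℕ}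
    (hp : ∃ p : PowerSeries S, p ≠ 0 ∧
      p • r (l + 1) ∈ Submodule.span (PowerSeries S) (Set.range fun i : Fin (l + 1) => r i))
    (hne : r 0 ⬝ᵥ Φ ≠ 0) : ∃ (x : ι → PowerSeries S) (a : PowerSeries S), a ≠ 0 ∧
      a • x ∈ Submodule.span (PowerSeries S) (Set.range fun i : Fin (l + 1) => r i) ∧
      IsUnit (x ⬝ᵥ Φ) := by
  set W := Submodule.span (PowerSeries S) (Set.range fun i : Fin (l + 1) => r i) with hW
  obtain ⟨p, p0, hp⟩ := hp
  let D : (ι → PowerSeries S) → ι → PowerSeries S := fun x =>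
    t • (fun μ => PowerSeries.derivative S (x μ)) + x ᵥ* Bm
  have Dadd : ∀ x y, D (x + y) = D x + D y := fun x y => by
    ext1 μ
    simp only [D, Pi.add_apply, Pi.smul_apply, map_add, add_vecMul, smul_eq_mul]
    ring
  have Dsm : ∀ (a : PowerSeries S) x,
      D (a • x) = a • D x + (t * PowerSeries.derivative S a) • x := fun a x => by
    ext1 μ
    simp only [D, Pi.add_apply, Pi.smul_apply, smul_eq_mul, Derivation.leibniz, smul_vecMul]
    ring
  have DP : ∀ x, D x ⬝ᵥ Φ = t * PowerSeries.derivative S (x ⬝ᵥ Φ) := fun x => by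
    have : Bm *ᵥ Φ = fun μ => t * PowerSeries.derivative S (Φ μ) := funext fun μ => (hΦ μ).symm
    rw [add_dotProduct, ← dotProduct_mulVec, this]
    simp only [dotProduct, map_sum, Derivation.leibniz, smul_eq_mul, Finset.mul_sum,
      Pi.smul_apply, ← Finset.sum_add_distrib]
    exact Finset.sum_congr rfl fun μ _ => by ring
  have DW : ∀ y ∈ W, p • D y ∈ W := fun y hy => by
    induction hy using Submodule.span_induction with
    | mem y hy =>
      obtain ⟨i, rfl⟩ := hy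
      have e : D (r i) = r (i + 1) := (hr i).symm
      rw [e]
      rcases Nat.lt_or_ge (i : ℕ) l with h | h
      · exact W.smul_mem _ (Submodule.subset_span ⟨⟨i + 1, by omega⟩, rfl⟩)
      · rwa [show (i : ℕ) = l by omega]
    | zero =>
      have e : D 0 = 0 := by ext1 μ; simp [D]
      simp [e]
    | add x y _ _ hx hy => rw [Dadd, smul_add]; exact W.add_mem hx hy
    | smul a x hx0 hx =>
      rw [Dsm, smul_add, smul_comm]
      exact W.add_mem (W.smul_mem _ hx) (W.smul_mem _ (W.smul_mem _ hx0))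
  by_contra hcon
  refine hne (zero_fam ht (F := {g | ∃ (x : ι → PowerSeries S) (a : PowerSeries S), a ≠ 0 ∧
    a • x ∈ W ∧ g = x ⬝ᵥ Φ}) ?_ ?_ _ ⟨r 0, 1, one_ne_zero, ?_, rfl⟩)
  · rintro _ ⟨x, a, a0, ha, rfl⟩ hu
    exact hcon ⟨x, a, a0, ha, hu⟩
  · rintro _ ⟨x, a, a0, ha, rfl⟩
    refine ⟨D x, a * p * a, by simp [a0, p0], ?_, (DP x).symm⟩
    have e : (a * p * a) • D x =
        a • p • D (a • x) - (p * (t * PowerSeries.derivative S a)) • a • x := by
      rw [Dsm]
      ext1 μ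
      simp only [Pi.add_apply, Pi.smul_apply, Pi.sub_apply, smul_eq_mul]
      ring
    rw [e]
    exact W.sub_mem (W.smul_mem _ (DW _ ha)) (W.smul_mem _ ha)
  · rw [one_smul]
    exact Submodule.subset_span ⟨0, rfl⟩

variable {T : k[X]} {B : Matrix ι ι k[X]}

/-- at an ordinary point where the form is not zero, all minors vanish to high order -/
theorem zero_pt [CharZero S] {τ : k[X] →+* PowerSeries S} {Φ : ι → PowerSeries S}
    (hi : Injective τ) (hτ : ∀ p, τ (derivative p) = PowerSeries.derivative S (τ p))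
    (hT : IsUnit (τ T)) (hS : IsS τ T B Φ) {ρ : ι → k[X]} {l μ : ℕ}
    (h1 : (wg fun i : Fin (l + 1) => (Dc T Bᵀ)^[i] ρ) ≠ 0)
    (h2 : (wg fun i : Fin (l + 2) => (Dc T Bᵀ)^[i] ρ) = 0)
    (hne : pr τ Φ ρ ≠ 0) (hμ : PowerSeries.X ^ μ ∣ pr τ Φ ρ) (J : Fin (l + 1) → ι) :
    PowerSeries.X ^ (μ - l) ∣ τ (wg (fun i : Fin (l + 1) => (Dc T Bᵀ)^[i] ρ) J) := by
  obtain ⟨s, hs⟩ : ∃ s : ℕ → ι → k[X], ∀ i, s i = (Dc T Bᵀ)^[i] ρ := ⟨_, fun _ => rfl⟩
  have hs1 : ∀ i, s (i + 1) = Dc T Bᵀ (s i) := fun i => by rw [hs, hs, iterate_succ_apply']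
  have hd : ∀ i, PowerSeries.X ^ (μ - i) ∣ pr τ Φ (s i) := fun i => hs i ▸ dvd_iter hτ hS hμ i
  simp only [← hs] at h1 h2 ⊢
  obtain ⟨J0, hJ0⟩ := Function.ne_iff.1 h1
  have rel := wg_cons (fun i : Fin (l + 2) => s i) J0
  rw [h2, Fin.sum_univ_castSucc] at rel
  simp only [Fin.succAbove_last, Fin.val_castSucc, Fin.val_last] at rel
  obtain ⟨a, p, hp, hrel⟩ : ∃ (a : Fin (l + 1) → k[X]) (p : k[X]), p ≠ 0 ∧
      p • s (l + 1) = ∑ i, a i • s i := by
    refine ⟨fun i => -_, _, ?_, by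
      simp only [neg_smul, Finset.sum_neg_distrib]
      exact (neg_eq_of_add_eq_zero_right rel.symm).symm⟩
    exact mul_ne_zero (pow_ne_zero _ (neg_ne_zero.2 one_ne_zero)) hJ0
  obtain ⟨x, b, b0, hb, hu⟩ := zero_core (Bm := B.map τ) (r := fun i ν => τ (s i ν)) (l := l) hT hS
    (fun i => by
      ext1 ν
      simp only [hs1, Dc, Pi.add_apply, Pi.smul_apply, smul_eq_mul, map_add, map_mul, hτ, mulVec,
        vecMul, dotProduct, map_sum, transpose_apply, map_apply, mul_comm (τ (B _ _))])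
    ⟨τ p, (map_ne_zero_iff τ hi).2 hp, (Submodule.mem_span_range_iff_exists_fun _).2
      ⟨fun i => τ (a i), by
        ext1 ν
        have := congrArg τ (congrFun hrel ν)
        simpa [map_sum] using this.symm⟩⟩
    (by simp only [hs, iterate_zero, id]; exact hne)
  obtain ⟨c, hc⟩ := (Submodule.mem_span_range_iff_exists_fun _).1 hb
  obtain ⟨c', hc'⟩ := R.bord_col (fun (i : Fin (l + 1)) ν => τ (s i ν)) J x
  have hz : ∀ β, R.bord (fun (i : Fin (l + 1)) ν => τ (s i ν)) J x β = 0 := fun β => by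
    refine exists_vecMul_eq_zero_iff.1 ⟨Fin.cons b (-c), fun h => b0 (congrFun h 0), ?_⟩
    ext1 j
    have := congrFun hc ((Fin.cons β J : Fin (l + 2) → ι) j)
    simp only [Finset.sum_apply, Pi.smul_apply, smul_eq_mul] at this
    rw [vecMul, dotProduct, Fin.sum_univ_succ]
    simp only [of_apply, Fin.cons_zero, Fin.cons_succ, Pi.neg_apply, neg_mul,
      Finset.sum_neg_distrib, this, add_neg_cancel, Pi.zero_apply]
  have e1 : τ (wg (fun i : Fin (l + 1) => s i) J) =
      R.mnr (fun (i : Fin (l + 1)) ν => τ (s i ν)) J := by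
    rw [wg, RingHom.map_det]
    rfl
  rw [e1, ← hu.dvd_mul_right]
  have e2 : R.mnr (fun (i : Fin (l + 1)) ν => τ (s i ν)) J * (x ⬝ᵥ Φ) =
      ∑ i : Fin (l + 1), -c' i * pr τ Φ (s i) := by
    simp only [dotProduct, pr, Finset.mul_sum]
    rw [Finset.sum_comm]
    refine Finset.sum_congr rfl fun β _ => ?_
    have := (hc' β).symm.trans (hz β)
    simp only [← mul_assoc, ← Finset.sum_mul, neg_mul, Finset.sum_neg_distrib]
    rw [eq_neg_of_add_eq_zero_left this, neg_mul]
  rw [e2]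
  exact Finset.dvd_sum fun i _ => ((pow_dvd_pow _ (by omega)).trans (hd i)).mul_left _

/-- the number of ordinary points where a non zero form vanishes to order `μ` -/
theorem zero_cnt [CharZero S] {τ : k → k[X] →+* PowerSeries S} {Φ : k → ι → PowerSeries S}
    {P : Finset k}
    (hv : ∀ x ∈ P, ∀ p a, PowerSeries.X ^ a ∣ τ x p → (X - C x) ^ a ∣ p)
    (hτ : ∀ x ∈ P, ∀ p, τ x (derivative p) = PowerSeries.derivative S (τ x p))
    (hT : ∀ x ∈ P, IsUnit (τ x T)) (hS : ∀ x ∈ P, IsS (τ x) T B (Φ x)) {e D μ : ℕ}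
    (hTe : T.natDegree ≤ e) (hB : ∀ i j, (B i j).natDegree ≤ e) {ρ : ι → k[X]} (h0 : ρ ≠ 0)
    (hρ : ∀ i, (ρ i).natDegree ≤ D) (hne : ∀ x ∈ P, pr (τ x) (Φ x) ρ ≠ 0)
    (hμ : ∀ x ∈ P, PowerSeries.X ^ μ ∣ pr (τ x) (Φ x) ρ) :
    P.card * (μ - Fintype.card ι) ≤ Fintype.card ι * (D + Fintype.card ι * e) := by
  classical
  set n := Fintype.card ι with hn
  have hex : (wg fun i : Fin (n + 1) => (Dc T Bᵀ)^[i] ρ) = 0 := by
    ext1 J
    obtain ⟨i, j, hij, h⟩ := Fintype.exists_ne_map_eq_of_card_lt J (by simp [hn])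
    exact det_zero_of_column_eq hij fun l => by simp [h]
  have hE : ∃ m, (wg fun i : Fin m => (Dc T Bᵀ)^[i] ρ) = 0 := ⟨_, hex⟩
  have hm := Nat.find_spec hE
  have hle : Nat.find hE ≤ n + 1 := Nat.find_min' hE hex
  have hmin : ∀ m < Nat.find hE, (wg fun i : Fin m => (Dc T Bᵀ)^[i] ρ) ≠ 0 :=
    fun m h => Nat.find_min hE h
  generalize Nat.find hE = m at hm hle hmin
  rcases m with _ | _ | l
  · simpa [wg] using congrFun hm Fin.elim0
  · exact absurd (funext fun ν => by simpa [wg] using congrFun hm fun _ => ν) h0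
  have h1 := hmin (l + 1) (by omega)
  obtain ⟨J, hJ⟩ := Function.ne_iff.1 h1
  have hdv : ∏ x ∈ P, (X - C x) ^ (μ - l) ∣ wg (fun i : Fin (l + 1) => (Dc T Bᵀ)^[i] ρ) J := by
    refine Finset.prod_dvd_of_coprime (fun x _ y _ h => ?_) fun x hx => hv x hx _ _
      (zero_pt ?_ (hτ x hx) (hT x hx) (hS x hx) h1 hm (hne x hx) (hμ x hx) J)
    · exact (isCoprime_X_sub_C_of_isUnit_sub (sub_ne_zero.2 h).isUnit).pow
    · refine (injective_iff_map_eq_zero _).2 fun p hp => ?_
      by_contra p0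
      have := natDegree_le_of_dvd (hv x hx p (p.natDegree + 1) (hp ▸ dvd_zero _)) p0
      rw [natDegree_pow, natDegree_X_sub_C] at this
      omega
  have h3 := natDegree_le_of_dvd hdv hJ
  rw [natDegree_prod_of_monic _ _ fun x _ => (monic_X_sub_C x).pow _] at h3
  simp only [natDegree_pow, natDegree_X_sub_C, mul_one, Finset.sum_const, smul_eq_mul] at h3
  have h4 : (wg (fun i : Fin (l + 1) => (Dc T Bᵀ)^[i] ρ) J).natDegree ≤ (l + 1) * (D + n * e) :=
    natDegree_wg (fun i ν => by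
      refine (natDegree_iter hTe (fun a b => hB b a) hρ i ν).trans ?_
      gcongr
      omega) J
  calc P.card * (μ - n) ≤ P.card * (μ - l) := by gcongr; omega
    _ ≤ (l + 1) * (D + n * e) := h3.trans h4
    _ ≤ n * (D + n * e) := by gcongr; omega

/-- expansion of a polynomial at a point -/
def tk (x : k) : k[X] →+* PowerSeries k := co.comp (taylorAlgHom x).toRingHom

theorem tk_apply (x : k) (p : k[X]) : tk x p = (taylor x p : k[X]) := rfl

theorem tk_deriv (x : k) (p : k[X]) :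
    tk x (derivative p) = PowerSeries.derivative k (tk x p) := by
  have : taylor x (derivative p) = derivative (taylor x p) := by
    simp [taylor_apply, derivative_comp]
  rw [tk_apply, this]
  exact co_deriv _

theorem tk_unit {x : k} {p : k[X]} (h : p.eval x ≠ 0) : IsUnit (tk x p) := by
  rw [PowerSeries.isUnit_iff_constantCoeff, tk_apply, Polynomial.constantCoeff_coe,
    taylor_coeff_zero]
  exact h.isUnit

theorem tk_dvd (x : k) (p : k[X]) (a : ℕ) (h : PowerSeries.X ^ a ∣ tk x p) : (X - C x) ^ a ∣ p := by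
  have h1 : X ^ a ∣ taylor x p := X_pow_dvd_iff.2 fun d hd => by
    simpa [tk_apply] using PowerSeries.X_pow_dvd_iff.1 h d hd
  have := map_dvd (taylorAlgHom (-x)) h1
  simpa [taylor_taylor, sub_eq_add_neg] using this

variable {I : Type*} [Fintype I]

/-- the Taylor coefficients at `x` of the functions `(z - s)^e Φ_(j α)(z)` -/
def thz (Φ : k → ι → PowerSeries k) (j : I → ι) (s : k) (D : ℕ) (x : k) (i : ℕ) :
    I × Fin D → k := fun a => PowerSeries.coeff i (tk x ((X - C s) ^ (a.2 : ℕ)) * Φ x (j a.1))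

theorem grid_one [CharZero k] {Φ : k → ι → PowerSeries k} {P : Finset k}
    (hT : ∀ x ∈ P, T.eval x ≠ 0) (hS : ∀ x ∈ P, IsS (tk x) T B (Φ x)) {e D μ M : ℕ}
    (hTe : T.natDegree ≤ e) (hB : ∀ i j, (B i j).natDegree ≤ e) {j : I → ι} (hj : Injective j)
    (hsel : ∀ φ : I → k[X], φ ≠ 0 → ∃ Q ⊆ P, M ≤ Q.card ∧
      ∀ x ∈ Q, ∑ α, tk x (φ α) * Φ x (j α) ≠ 0)
    (hM : Fintype.card ι * (D + Fintype.card ι * e) < M * (μ - Fintype.card ι)) (s : k)
    {b : I × Fin D → k} (hb : ∀ x ∈ P, ∀ i < μ, b ⬝ᵥ thz Φ j s D x i = 0) : b = 0 := by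
  classical
  let φ : I → k[X] := fun α => ∑ d : Fin D, C (b (α, d)) * (X - C s) ^ (d : ℕ)
  by_cases h0 : φ = 0
  · ext ⟨α, d⟩
    have := congrArg (fun p => (taylor s p).coeff d) (congrFun h0 α)
    simp only [φ, map_sum, taylor_mul, taylor_C, taylor_pow, map_sub, taylor_X, add_sub_cancel_right,
      finsetSum_coeff, coeff_C_mul, coeff_X_pow, Fin.val_inj, mul_ite, mul_one, mul_zero,
      Finset.sum_ite_eq, Finset.mem_univ, if_true, Pi.zero_apply, map_zero, coeff_zero] at this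
    exact this
  obtain ⟨Q, hQ, hc, hne⟩ := hsel φ h0
  have hρ : ∀ α, (∑ β, Pi.single (j β) (φ β) : ι → k[X]) (j α) = φ α := fun α => by
    simp [Pi.single_apply, hj.eq_iff]
  have hpr : ∀ x, pr (tk x) (Φ x) (∑ β, Pi.single (j β) (φ β)) =
      ∑ α, tk x (φ α) * Φ x (j α) := fun x => by simp only [pr_sum, pr_single]
  have hdeg : ∀ α, (φ α).natDegree ≤ D := fun α =>
    natDegree_sum_le_of_forall_le _ _ fun d _ => (natDegree_C_mul_le _ _).trans (by
      rw [natDegree_pow, natDegree_X_sub_C]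
      omega)
  have := zero_cnt (τ := tk) (Φ := Φ) (P := Q) (μ := μ) (D := D) (fun x _ => tk_dvd x)
    (fun x _ => tk_deriv x) (fun x hx => tk_unit (hT x (hQ hx))) (fun x hx => hS x (hQ hx)) hTe hB
    (ρ := ∑ β, Pi.single (j β) (φ β)) (fun h => h0 (funext fun α => by rw [← hρ, h]; rfl))
    (fun ν => by
      rw [Finset.sum_apply]
      refine natDegree_sum_le_of_forall_le _ _ fun β _ => ?_
      rw [Pi.single_apply]
      split_ifs
      exacts [hdeg β, Nat.zero_le _])
    (fun x hx => by rw [hpr]; exact hne x hx)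
    (fun x hx => PowerSeries.X_pow_dvd_iff.2 fun i hi => by
      have hC : ∀ a : k, tk x (C a) = PowerSeries.C a := fun a => by simp [tk_apply]
      rw [hpr, ← hb x (hQ hx) i hi]
      simp only [φ, map_sum, map_mul, hC, Finset.sum_mul, mul_assoc, PowerSeries.coeff_C_mul,
        dotProduct, Fintype.sum_prod_type, thz])
  have h2 := Nat.mul_le_mul_right (μ - Fintype.card ι) hc
  omega

/-- the zero estimate on the grid -/
theorem grid_zero [CharZero k] {σ : Type*} [Fintype σ] [DecidableEq σ]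
    {Φ : k → ι → PowerSeries k} {P : Finset k}
    (hT : ∀ x ∈ P, T.eval x ≠ 0) (hS : ∀ x ∈ P, IsS (tk x) T B (Φ x)) {e D μ M : ℕ}
    (hTe : T.natDegree ≤ e) (hB : ∀ i j, (B i j).natDegree ≤ e) {j : I → ι} (hj : Injective j)
    (hsel : ∀ φ : I → k[X], φ ≠ 0 → ∃ Q ⊆ P, M ≤ Q.card ∧
      ∀ x ∈ Q, ∑ α, tk x (φ α) * Φ x (j α) ≠ 0)
    (hM : Fintype.card ι * (D + Fintype.card ι * e) < M * (μ - Fintype.card ι)) (s : k)
    {c : (σ → I × Fin D) → k} (hc : ∀ (x : σ → k) (i : σ → ℕ), (∀ a, x a ∈ P) → (∀ a, i a < μ) →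
      c ⬝ᵥ tens (fun a => thz Φ j s D (x a) (i a)) = 0) : c = 0 := by
  classical
  ext ν
  have := R.mrep (σ := σ) (S := fun _ => {y | ∃ x ∈ P, ∃ i < μ, y = thz Φ j s D x i})
    (S' := fun _ => Set.univ) (a := c) (x := fun a => Pi.single (ν a) 1)
    (fun _ b hb y _ => by
      rw [grid_one hT hS hTe hB hj hsel hM s fun x hx i hi => hb _ ⟨x, hx, i, hi, rfl⟩,
        zero_dotProduct])
    (fun y hy => by
      choose x hx i hi e using hy
      rw [show y = _ from funext e]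
      exact hc x i hx hi) fun _ => trivial
  have e : (tens fun a => (Pi.single (ν a) 1 : I × Fin D → k)) = Pi.single ν 1 := by
    ext ν'
    simp [tens, Pi.single_apply, Finset.prod_ite_zero, funext_iff]
  rwa [e, dotProduct_single, mul_one] at this

end

end Pool.Agent.Lib.MP_5591bc_ag.H
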